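import Pool.Agent.W5h94.CU.Free
import Pool.Agent.W5h94.CU.Zero
import Pool.Agent.W5h86.HD.Irred

set_option autoImplicit false

/-!
# Linear sections of a smooth hypersurface are irreducible
-/

universe u

namespace Pool.Agent.W5h94.CU

open MvPolynomial Pool.Agent.W5h86.HC

section lin

variable {K : Type u} [Field K] {N : ℕ}

/-- Linear forms, as a linear map. -/
noncomputable def lformL (K : Type u) [Field K] (N : ℕ) :
    (Fin N → K) →ₗ[K] MvPolynomial (Fin N) K where
  toFun v := lform v
  map_add' a b := by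
    unfold lform
    rw [← Finset.sum_add_distrib]
    refine Finset.sum_congr rfl fun i _ => ?_
    rw [Pi.add_apply, map_add, add_mul]
  map_smul' c a := by
    unfold lform
    rw [RingHom.id_apply, Finset.smul_sum]
    refine Finset.sum_congr rfl fun i _ => ?_
    rw [Pi.smul_apply, smul_eq_mul, map_mul, smul_eq_C_mul, mul_assoc]

lemma lformL_apply (v : Fin N → K) : lformL K N v = lform v := rfl

lemma lform_mem {i : ℕ} {ℓ : Fin i → Fin N → K} {v : Fin N → K}
    (hv : v ∈ Submodule.span K (Set.range ℓ)) :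
    lform v ∈ Ideal.span (Set.range fun k => lform (ℓ k)) := by
  refine Submodule.span_induction
    (p := fun v _ => lform v ∈ Ideal.span (Set.range fun k => lform (ℓ k))) ?_ ?_ ?_ ?_ hv
  · rintro _ ⟨k, rfl⟩
    exact Ideal.subset_span ⟨k, rfl⟩
  · rw [← lformL_apply, map_zero]
    exact Ideal.zero_mem _
  · intro x y _ _ hx hy
    rw [← lformL_apply, map_add]
    exact Ideal.add_mem _ hx hy
  · intro c x _ hx
    rw [← lformL_apply, map_smul, smul_eq_C_mul]
    exact Ideal.mul_mem_left _ _ hx

lemma span_lform_congr {i j : ℕ} {ℓ : Fin i → Fin N → K} {ℓ' : Fin j → Fin N → K}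
    (h : Submodule.span K (Set.range ℓ) = Submodule.span K (Set.range ℓ')) :
    Ideal.span (Set.range fun k => lform (ℓ k)) =
      Ideal.span (Set.range fun k => lform (ℓ' k)) := by
  apply le_antisymm
  · rw [Ideal.span_le]
    rintro _ ⟨k, rfl⟩
    exact lform_mem (h ▸ Submodule.subset_span ⟨k, rfl⟩)
  · rw [Ideal.span_le]
    rintro _ ⟨k, rfl⟩
    exact lform_mem (h ▸ Submodule.subset_span ⟨k, rfl⟩)

/-- A parametrization of the subspace `w = 0`. -/
lemma exists_sec {p : ℕ} {w : Fin p → Fin N → K} (hw : LinearIndependent K w) :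
    ∃ (M : ℕ) (B : Matrix (Fin N) (Fin M) K) (B' : Matrix (Fin M) (Fin N) K)
      (γ : Fin p → Fin N → K), M + p = N ∧ B' * B = 1 ∧ (∀ k, Matrix.vecMul (w k) B = 0) ∧
      ∀ c c', (B * B') c c' + ∑ k, γ k c * w k c' = (1 : Matrix (Fin N) (Fin N) K) c c' := by
  obtain ⟨hk, g, g', hg, hg', hgw⟩ := exists_coord w hw
  obtain ⟨M, rfl⟩ := Nat.exists_eq_add_of_le hk
  refine ⟨M, Matrix.of fun c a => g c (Fin.natAdd p a), Matrix.of fun a c => g' (Fin.natAdd p a) c,
    fun k c => g c (Fin.castAdd M k), Nat.add_comm _ _, ?_, ?_, ?_⟩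
  · ext a a'
    have h1 : ((Matrix.of fun a c => g' (Fin.natAdd p a) c) *
        (Matrix.of fun c a => g c (Fin.natAdd p a)) : Matrix (Fin M) (Fin M) K) a a' =
        (g' * g) (Fin.natAdd p a) (Fin.natAdd p a') := rfl
    rw [h1, hg', Matrix.one_apply, Matrix.one_apply]
    by_cases h : a = a'
    · rw [if_pos (by rw [h]), if_pos h]
    · rw [if_neg (fun h3 => h (Fin.natAdd_injective M p h3)), if_neg h]
  · intro k
    funext a
    have h1 : Matrix.vecMul (w k) (Matrix.of fun c a => g c (Fin.natAdd p a)) a =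
        (g' * g) (Fin.castAdd M k) (Fin.natAdd p a) := by
      rw [← hgw k]
      rfl
    rw [h1, hg', Matrix.one_apply_ne, Pi.zero_apply]
    intro h3
    have h4 := congrArg Fin.val h3
    rw [Fin.val_castAdd, Fin.val_natAdd] at h4
    omega
  · intro c c'
    have h1 : (g * g') c c' = (1 : Matrix (Fin (p + M)) (Fin (p + M)) K) c c' := by rw [hg]
    rw [← h1, Matrix.mul_apply, Matrix.mul_apply, Fin.sum_univ_add, add_comm]
    congr 1
    refine Finset.sum_congr rfl fun k _ => ?_
    have h2 : g' (Fin.castAdd M k) = w k := hgw k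
    rw [h2]

end lin

section sec

variable {K : Type u} [Field K] {N p M : ℕ} {w : Fin p → Fin N → K}
  {B : Matrix (Fin N) (Fin M) K} {B' : Matrix (Fin M) (Fin N) K} {γ : Fin p → Fin N → K}

lemma lsub_sec_inv (hB : B' * B = 1) (y : MvPolynomial (Fin M) K) :
    lsub K B (lsub K B' y) = y := by
  rw [lsub_lsub, hB, lsub_one]
  rfl

lemma lsub_lform_vecMul (v : Fin N → K) : lsub K B (lform v) = lform (Matrix.vecMul v B) :=
  lsub_lform B v

lemma sub_sec_mem (hBB : ∀ c c', (B * B') c c' + ∑ k, γ k c * w k c' =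
    (1 : Matrix (Fin N) (Fin N) K) c c') (f : MvPolynomial (Fin N) K) :
    f - lsub K B' (lsub K B f) ∈ Ideal.span (Set.range fun k => lform (w k)) := by
  rw [← Ideal.Quotient.eq_zero_iff_mem, map_sub, sub_eq_zero]
  have h1 : (Ideal.Quotient.mkₐ K (Ideal.span (Set.range fun k => lform (w k)))).comp
      ((lsub K B').comp (lsub K B)) =
      Ideal.Quotient.mkₐ K (Ideal.span (Set.range fun k => lform (w k))) := by
    apply MvPolynomial.algHom_ext
    intro c
    rw [AlgHom.comp_apply, AlgHom.comp_apply, lsub_lsub, lsub_X]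
    have h3 : (B * B') c = Pi.single c 1 - ∑ k, γ k c • w k := by
      rw [eq_sub_iff_add_eq]
      funext c'
      rw [Pi.add_apply, Finset.sum_apply]
      simp only [Pi.smul_apply, smul_eq_mul]
      rw [hBB, Matrix.one_apply, Pi.single_apply]
      simp only [eq_comm]
    have h2 : ∑ c', C ((B * B') c c') * X c' =
        X c - ∑ k, C (γ k c) * lform (w k) := by
      have h4 : ∑ c', C ((B * B') c c') * X c' = lformL K N ((B * B') c) := rfl
      rw [h4, h3, map_sub, map_sum, lformL_apply, lform_single]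
      congr 1
      refine Finset.sum_congr rfl fun k _ => ?_
      rw [map_smul, smul_eq_C_mul, lformL_apply]
    rw [h2, map_sub]
    have h5 : Ideal.Quotient.mkₐ K (Ideal.span (Set.range fun k => lform (w k)))
        (∑ k, C (γ k c) * lform (w k)) = 0 := by
      refine Ideal.Quotient.eq_zero_iff_mem.2 (Ideal.sum_mem _ fun k _ => ?_)
      exact Ideal.mul_mem_left _ _ (Ideal.subset_span ⟨k, rfl⟩)
    rw [h5, sub_zero]
  exact (DFunLike.congr_fun h1 f).symm

/-- The ideal of a linear section. -/
lemma comap_sec (hB : B' * B = 1) (hwB : ∀ k, Matrix.vecMul (w k) B = 0)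
    (hBB : ∀ c c', (B * B') c c' + ∑ k, γ k c * w k c' = (1 : Matrix (Fin N) (Fin N) K) c c')
    (F : MvPolynomial (Fin N) K) : (Ideal.span {lsub K B F}).comap (lsub K B) =
      Ideal.span {F} ⊔ Ideal.span (Set.range fun k => lform (w k)) := by
  apply le_antisymm
  · intro f hf
    have h1 : lsub K B f ∈ Ideal.span {lsub K B F} := hf
    obtain ⟨c, hc⟩ := Ideal.mem_span_singleton'.1 h1
    have h2 := sub_sec_mem hBB (f - lsub K B' c * F)
    rw [map_sub, map_mul, lsub_sec_inv hB, hc, sub_self, map_zero, sub_zero] at h2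
    have h3 : f = lsub K B' c * F + (f - lsub K B' c * F) := by ring
    rw [h3]
    exact Ideal.add_mem _ (Ideal.mem_sup_left (Ideal.mul_mem_left _ _
      (Ideal.mem_span_singleton_self F))) (Ideal.mem_sup_right h2)
  · refine sup_le ?_ ?_
    · rw [Ideal.span_singleton_le_iff_mem]
      exact Ideal.mem_span_singleton_self _
    · rw [Ideal.span_le]
      rintro _ ⟨k, rfl⟩
      change lsub K B (lform (w k)) ∈ Ideal.span {lsub K B F}
      rw [lsub_lform_vecMul, hwB, ← lformL_apply, map_zero]
      exact Ideal.zero_mem _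

/-- Forms which vanish on the subspace `w = 0`. -/
lemma mem_span_of_vecMul (hBB : ∀ c c', (B * B') c c' + ∑ k, γ k c * w k c' =
    (1 : Matrix (Fin N) (Fin N) K) c c') {v : Fin N → K} (hv : Matrix.vecMul v B = 0) :
    v ∈ Submodule.span K (Set.range w) := by
  have h1 : v = ∑ k, (∑ c, v c * γ k c) • w k := by
    funext c'
    have h2 : v c' = ∑ c, v c * (1 : Matrix (Fin N) (Fin N) K) c c' := by
      have h3 := congrFun (Matrix.vecMul_one v) c'
      exact h3.symm
    rw [h2, Finset.sum_apply]
    simp only [Pi.smul_apply, smul_eq_mul]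
    have h4 : ∀ c, v c * (1 : Matrix (Fin N) (Fin N) K) c c' =
        v c * (B * B') c c' + ∑ k, v c * γ k c * w k c' := by
      intro c
      rw [← hBB, mul_add, Finset.mul_sum]
      congr 1
      refine Finset.sum_congr rfl fun k _ => ?_
      ring
    rw [Finset.sum_congr rfl fun c _ => h4 c, Finset.sum_add_distrib]
    have h5 : ∑ c, v c * (B * B') c c' = 0 := by
      have h6 : ∑ c, v c * (B * B') c c' = Matrix.vecMul v (B * B') c' := rfl
      rw [h6, ← Matrix.vecMul_vecMul, hv, Matrix.zero_vecMul, Pi.zero_apply]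
    rw [h5, zero_add, Finset.sum_comm]
    refine Finset.sum_congr rfl fun k _ => ?_
    rw [Finset.sum_mul]
  rw [h1]
  refine Submodule.sum_mem _ fun k _ => Submodule.smul_mem _ _ (Submodule.subset_span ⟨k, rfl⟩)

end sec

section irred

variable {K : Type u} [Field K] {M : ℕ}

/-- Prime factors of forms are forms. -/
lemma constantCoeff_of_prime_dvd {H : MvPolynomial (Fin (M + 1)) K} {e : ℕ}
    (hH : IsHomogeneous H e) (hH0 : H ≠ 0) {b : MvPolynomial (Fin (M + 1)) K} (hbp : Prime b)
    (hb : b ∣ H) : constantCoeff b = 0 := by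
  have hspan : (Ideal.span {b}).IsPrime := (Ideal.span_singleton_prime hbp.ne_zero).2 hbp
  have hHb : H ∈ Ideal.span {b} := Ideal.mem_span_singleton.2 hb
  have hhom : IsHomIdeal (Ideal.span {b}) := by
    refine isHomIdeal_of_minimal hH ⟨⟨hspan, ?_⟩, ?_⟩
    · rw [Ideal.span_singleton_le_iff_mem]
      exact hHb
    · rintro Q ⟨hQ, hHQ⟩ hle
      obtain ⟨k, hk⟩ := exists_trdeg_eq (K := K) Q
      have h1 : k < M + 1 := by
        refine trdeg_quot_lt (K := K) Ideal.isPrime_bot hQ (lt_of_le_of_ne bot_le fun h => ?_)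
          trdeg_bot hk
        rw [← h, Ideal.span_singleton_le_iff_mem, Ideal.mem_bot] at hHQ
        exact hH0 hHQ
      by_contra hcon
      have h2 := trdeg_quot_lt (K := K) hQ hspan (lt_of_le_of_ne hle fun h => hcon h.symm.le) hk
        (trdeg_span_prime hbp)
      omega
  exact constantCoeff_eq_zero_of_mem hspan hhom (Ideal.mem_span_singleton_self b)

/-- A criterion for irreducibility. -/
theorem prime_of_no_factor {H : MvPolynomial (Fin (M + 1)) K} {e : ℕ}
    (hH : IsHomogeneous H (e + 1))
    (h : ∀ a b, constantCoeff a = 0 → constantCoeff b = 0 → H ≠ a * b) : Prime H := by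
  have hH0 : H ≠ 0 := by
    intro h0
    exact h 0 0 (map_zero _) (map_zero _) (by rw [h0, mul_zero])
  obtain ⟨f, hf, hfH⟩ := UniqueFactorizationMonoid.exists_prime_factors H hH0
  have hcc : constantCoeff H = 0 := by
    by_contra h1
    have h2 := hH (d := 0) h1
    simp at h2
  have hfne : f ≠ 0 := by
    rintro rfl
    rw [Multiset.prod_zero] at hfH
    have h1 : IsUnit H := associated_one_iff_isUnit.1 hfH.symm
    have h2 := h1.map (constantCoeff (σ := Fin (M + 1)) (R := K))
    rw [hcc] at h2
    exact not_isUnit_zero h2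
  obtain ⟨p, hp⟩ := Multiset.exists_mem_of_ne_zero hfne
  have hdvd : ∀ b ∈ f, b ∣ H := fun b hb => (Multiset.dvd_prod hb).trans hfH.dvd
  have hcf : ∀ b ∈ f, constantCoeff b = 0 := fun b hb =>
    constantCoeff_of_prime_dvd hH hH0 (hf b hb) (hdvd b hb)
  have hpp := hf p hp
  have hcp := hcf p hp
  obtain ⟨f', rfl⟩ := Multiset.exists_cons_of_mem hp
  rw [Multiset.prod_cons] at hfH
  by_cases hf' : f' = 0
  · rw [hf', Multiset.prod_zero, mul_one] at hfH
    exact hfH.prime hpp
  · exfalso
    obtain ⟨b, hb⟩ := Multiset.exists_mem_of_ne_zero hf'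
    have hcb := hcf b (Multiset.mem_cons_of_mem hb)
    obtain ⟨f'', rfl⟩ := Multiset.exists_cons_of_mem hb
    obtain ⟨v, hv⟩ := hfH
    refine h p (b * (f''.prod * v)) hcp ?_ ?_
    · rw [map_mul, hcb, zero_mul]
    · rw [← hv, Multiset.prod_cons]
      ring

end irred

section smooth

variable {K : Type u} [Field K] {N p M : ℕ} {w : Fin p → Fin N → K}
  {B : Matrix (Fin N) (Fin M) K} {B' : Matrix (Fin M) (Fin N) K} {γ : Fin p → Fin N → K}

/-- Linear sections of smooth hypersurfaces are irreducible. -/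
theorem prime_sec {e : ℕ} {F : MvPolynomial (Fin N) K} (hF : IsHomogeneous F (e + 2))
    (hs : Smooth F) (hB : B' * B = 1)
    (hBB : ∀ c c', (B * B') c c' + ∑ k, γ k c * w k c' = (1 : Matrix (Fin N) (Fin N) K) c c')
    (hp : p + 2 < M) : Prime (lsub K B F) := by
  obtain ⟨M, rfl⟩ : ∃ M', M = M' + 1 := ⟨M - 1, by omega⟩
  refine prime_of_no_factor (e := e + 1) (isHomogeneous_lsub _ hF) ?_
  intro a c ha hc hac
  obtain ⟨L, _, _, b, hb, hb0⟩ := exists_common_zero' (K := K) (s := p + 2) (c := M + 1) (by omega)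
    (Fin.cons a (Fin.cons c fun k => ∑ i, C (γ k i) * lsub K B (pderiv i F))) (by
      intro k
      refine Fin.cases ha (fun k => ?_) k
      refine Fin.cases hc (fun k => ?_) k
      rw [Fin.cons_succ, Fin.cons_succ, map_sum]
      refine Finset.sum_eq_zero fun i _ => ?_
      have h1 : IsHomogeneous (lsub K B (pderiv i F)) (e + 1) :=
        isHomogeneous_lsub _ (hF.pderiv (i := i))
      have h2 : constantCoeff (lsub K B (pderiv i F)) = 0 := by
        by_contra h3
        have h4 := h1 (d := 0) h3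
        simp at h4
      rw [map_mul, h2, mul_zero])
  have hba : aeval b a = 0 := hb0 0
  have hbc : aeval b c = 0 := hb0 1
  have hbγ : ∀ k, ∑ i, algebraMap K L (γ k i) * aeval b (lsub K B (pderiv i F)) = 0 := by
    intro k
    have h1 := hb0 k.succ.succ
    rw [Fin.cons_succ, Fin.cons_succ, map_sum] at h1
    rw [← h1]
    refine Finset.sum_congr rfl fun i _ => ?_
    rw [map_mul, aeval_C]
  set x : Fin N → L := fun i => ∑ j, algebraMap K L (B i j) * b j with hx
  have hev : ∀ f, aeval b (lsub K B f) = aeval x f := fun f => aeval_lsub B f b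
  have hxne : x ≠ 0 := by
    intro h0
    apply hb
    funext j
    have h1 : ∑ i, algebraMap K L (B' j i) * x i = b j := by
      simp only [hx, Finset.mul_sum]
      rw [Finset.sum_comm]
      have h2 : ∀ l, ∑ i, algebraMap K L (B' j i) * (algebraMap K L (B i l) * b l) =
          algebraMap K L ((B' * B) j l) * b l := by
        intro l
        rw [Matrix.mul_apply, map_sum, Finset.sum_mul]
        refine Finset.sum_congr rfl fun i _ => ?_
        rw [map_mul, mul_assoc]
      rw [Finset.sum_congr rfl fun l _ => h2 l, hB, Finset.sum_eq_single j]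
      · rw [Matrix.one_apply_eq, map_one, one_mul]
      · intro l _ hl
        rw [Matrix.one_apply_ne hl.symm, map_zero, zero_mul]
      · simp
    rw [← h1, h0]
    simp
  obtain ⟨i₀, hi₀⟩ := hs L x hxne (by rw [← hev, hac, map_mul, hba, zero_mul])
  apply hi₀
  have hBy : ∀ j, ∑ i, algebraMap K L (B i j) * aeval x (pderiv i F) = 0 := by
    intro j
    have h1 : aeval b (pderiv j (lsub K B F)) = 0 := by
      rw [hac, pderiv_mul, map_add, map_mul, map_mul, hba, hbc, mul_zero, zero_mul, add_zero]
    rw [pderiv_lsub, map_sum] at h1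
    rw [← h1]
    refine Finset.sum_congr rfl fun i _ => ?_
    rw [map_mul, aeval_C, hev]
  have hγy : ∀ k, ∑ i, algebraMap K L (γ k i) * aeval x (pderiv i F) = 0 := by
    intro k
    rw [← hbγ k]
    refine Finset.sum_congr rfl fun i _ => ?_
    rw [hev]
  have h1 : ∑ i, algebraMap K L ((1 : Matrix (Fin N) (Fin N) K) i i₀) * aeval x (pderiv i F) =
      aeval x (pderiv i₀ F) := by
    rw [Finset.sum_eq_single i₀]
    · rw [Matrix.one_apply_eq, map_one, one_mul]
    · intro l _ hl
      rw [Matrix.one_apply_ne hl, map_zero, zero_mul]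
    · simp
  rw [← h1]
  have h2 : ∀ i, algebraMap K L ((1 : Matrix (Fin N) (Fin N) K) i i₀) * aeval x (pderiv i F) =
      ∑ j, algebraMap K L (B' j i₀) * (algebraMap K L (B i j) * aeval x (pderiv i F)) +
      ∑ k, algebraMap K L (w k i₀) * (algebraMap K L (γ k i) * aeval x (pderiv i F)) := by
    intro i
    rw [← hBB, map_add, add_mul, Matrix.mul_apply, map_sum, map_sum, Finset.sum_mul,
      Finset.sum_mul]
    congr 1
    · refine Finset.sum_congr rfl fun j _ => ?_
      rw [map_mul]
      ring
    · refine Finset.sum_congr rfl fun k _ => ?_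
      rw [map_mul]
      ring
  rw [Finset.sum_congr rfl fun i _ => h2 i, Finset.sum_add_distrib, Finset.sum_comm]
  have h3 : ∑ j, ∑ i, algebraMap K L (B' j i₀) *
      (algebraMap K L (B i j) * aeval x (pderiv i F)) = 0 := by
    refine Finset.sum_eq_zero fun j _ => ?_
    rw [← Finset.mul_sum, hBy, mul_zero]
  rw [h3, zero_add, Finset.sum_comm]
  refine Finset.sum_eq_zero fun k _ => ?_
  rw [← Finset.mul_sum, hγy, mul_zero]

end smooth

end Pool.Agent.W5h94.CU
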