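import Pool.Agent.W5h94.CU.Any

set_option autoImplicit false

/-!
# The class of a linear section of a smooth hypersurface does not depend on the linear forms
-/

universe u

namespace Pool.Agent.W5h94.CU

open MvPolynomial Pool.Agent.W5h86.HC

variable {K : Type u} [Field K] {N : ℕ}

/-- The ideal of an irreducible linear section. -/
lemma isSub_sec {M : ℕ} {B : Matrix (Fin N) (Fin (M + 1)) K} {B' : Matrix (Fin (M + 1)) (Fin N) K}
    (hB : B' * B = 1) {F : MvPolynomial (Fin N) K} {e : ℕ} (hF : IsHomogeneous F e)
    (hH : Prime (lsub K B F)) :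
    IsSub M 1 ((Ideal.span {lsub K B F}).comap (lsub K B)) := by
  have hspan : (Ideal.span {lsub K B F}).IsPrime :=
    (Ideal.span_singleton_prime hH.ne_zero).2 hH
  have hprime : ((Ideal.span {lsub K B F}).comap (lsub K B)).IsPrime := hspan.comap _
  refine ⟨hprime, ?_, ?_, fun h1 => hprime.ne_top ((Ideal.eq_top_iff_one _).2 h1)⟩
  · have h1 : IsHomIdeal (Ideal.span {lsub K B F}) := by
      refine isHomIdeal_of_minimal (isHomogeneous_lsub _ hF) ⟨⟨hspan, le_rfl⟩, ?_⟩
      intro Q hQ _
      exact hQ.2
    intro f hf i
    change lsub K B (homogeneousComponent i f) ∈ Ideal.span {lsub K B F}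
    rw [← homogeneousComponent_lsub]
    exact h1 _ hf i
  · have h1 := trdeg_comap (K := K) (lsub K B) hspan (fun y => ⟨1, lsub K B' y, by
      rw [map_one]
      exact fun h2 => hspan.ne_top ((Ideal.eq_top_iff_one _).2 h2), by
      rw [map_one, one_mul, lsub_sec_inv hB]⟩)
    rw [trdeg_span_prime hH] at h1
    exact h1

/-- A linear form which is divisible by a form of degree at least two vanishes. -/
lemma lform_eq_zero_of_dvd {M e : ℕ} {H : MvPolynomial (Fin M) K} (hH : IsHomogeneous H (e + 2))
    {v : Fin M → K} (h : H ∣ lform v) : v = 0 := by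
  obtain ⟨c, hc⟩ := h
  have h0 : (lform v : MvPolynomial (Fin M) K) = 0 := by
    by_contra hne
    have hH0 : H ≠ 0 := by
      rintro rfl
      rw [zero_mul] at hc
      exact hne hc
    have hc0 : c ≠ 0 := by
      rintro rfl
      rw [mul_zero] at hc
      exact hne hc
    have h1 := totalDegree_mul_of_isDomain hH0 hc0
    rw [← hc, (isHomogeneous_lform v).totalDegree hne, hH.totalDegree hH0] at h1
    omega
  funext i
  have h1 := congrArg (coeff (Finsupp.single i 1)) h0
  unfold lform at h1
  rw [coeff_sum, coeff_zero, Finset.sum_eq_single i] at h1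
  · rw [coeff_C_mul, coeff_X, if_pos rfl, mul_one] at h1
    exact h1
  · intro j _ hj
    rw [coeff_C_mul, coeff_X, if_neg, mul_zero]
    intro h2
    exact hj (Finsupp.single_left_injective one_ne_zero h2)
  · simp

/-- **Exchange of one linear form.** -/
theorem exchange {p e : ℕ} {F : MvPolynomial (Fin N) K} (hF : IsHomogeneous F (e + 2))
    (hs : Smooth F) {w : Fin p → Fin N → K} (hw : LinearIndependent K w) (hpN : 2 * p + 2 < N)
    {v v' : Fin N → K} (hv : v ∉ Submodule.span K (Set.range w))
    (hv' : v' ∉ Submodule.span K (Set.range w)) {t : ℕ} (ht : t + (p + 1) + 1 = N) :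
    sect t F (Fin.cons v w : Fin (p + 1) → Fin N → K) -
      sect t F (Fin.cons v' w : Fin (p + 1) → Fin N → K) ∈ RatEq F t := by
  obtain ⟨M, B, B', γ, hM, hB, hwB, hBB⟩ := exists_sec hw
  have hprime : Prime (lsub K B F) := prime_sec hF hs hB hBB (by omega)
  obtain rfl : M = t + 1 + 1 := by omega
  set J := (Ideal.span {lsub K B F}).comap (lsub K B) with hJ
  have hsub : IsSub (t + 1) 1 J := isSub_sec hB hF hprime
  have hJe : J = Ideal.span {F} ⊔ Ideal.span (Set.range fun k => lform (w k)) :=
    comap_sec hB hwB hBB F
  have hnot : ∀ u : Fin N → K, u ∉ Submodule.span K (Set.range w) → lform u ∉ J := by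
    intro u hu h1
    apply hu
    apply mem_span_of_vecMul hBB
    have h2 : lsub K B (lform u) ∈ Ideal.span {lsub K B F} := h1
    rw [lsub_lform_vecMul, Ideal.mem_span_singleton] at h2
    exact lform_eq_zero_of_dvd (isHomogeneous_lsub _ hF) h2
  have hsect : ∀ u : Fin N → K, sect t F (Fin.cons u w : Fin (p + 1) → Fin N → K) =
      idiv t 1 J (lform u) := by
    intro u
    have h1 : Ideal.span {F} ⊔ Ideal.span (Set.range fun k =>
        lform ((Fin.cons u w : Fin (p + 1) → Fin N → K) k)) = J ⊔ Ideal.span {lform u} := by
      rw [hJe, sup_assoc]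
      congr 1
      rw [← Ideal.span_union]
      congr 1
      ext f
      constructor
      · rintro ⟨k, rfl⟩
        refine Fin.cases ?_ (fun k => ?_) k
        · right
          rfl
        · left
          exact ⟨k, rfl⟩
      · rintro (⟨k, rfl⟩ | h)
        · exact ⟨k.succ, rfl⟩
        · rw [Set.mem_singleton_iff] at h
          rw [h]
          exact ⟨0, rfl⟩
    unfold sect idiv
    rw [h1]
  rw [hsect, hsect]
  refine Submodule.subset_span ⟨J, lform v, lform v', 1, hsub, ?_, isHomogeneous_lform v,
    isHomogeneous_lform v', hnot v hv, hnot v' hv', rfl⟩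
  exact Ideal.mem_span_singleton_self _

lemma sect_congr {i j t : ℕ} {F : MvPolynomial (Fin N) K} {ℓ : Fin i → Fin N → K}
    {ℓ' : Fin j → Fin N → K}
    (h : Submodule.span K (Set.range ℓ) = Submodule.span K (Set.range ℓ')) :
    sect t F ℓ = sect t F ℓ' := by
  unfold sect
  rw [span_lform_congr h]

lemma finrank_span_li {i : ℕ} {ℓ : Fin i → Fin N → K} (hℓ : LinearIndependent K ℓ) :
    Module.finrank K (Submodule.span K (Set.range ℓ)) = i := by
  rw [finrank_span_eq_card hℓ, Fintype.card_fin]

/-- **The class of a linear section does not depend on the linear forms.** -/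
theorem sect_sub_mem {i e t : ℕ} {F : MvPolynomial (Fin N) K} (hF : IsHomogeneous F (e + 2))
    (hs : Smooth F) (hiN : 2 * i < N) (ht : t + i + 1 = N) (d : ℕ) :
    ∀ ℓ ℓ' : Fin i → Fin N → K, LinearIndependent K ℓ → LinearIndependent K ℓ' →
      i ≤ Module.finrank K (Submodule.span K (Set.range ℓ) ⊓ Submodule.span K (Set.range ℓ') :
        Submodule K (Fin N → K)) + d →
      sect t F ℓ - sect t F ℓ' ∈ RatEq F t := by
  induction d with
  | zero =>
    intro ℓ ℓ' hℓ hℓ' h
    have h1 : Submodule.span K (Set.range ℓ) ⊓ Submodule.span K (Set.range ℓ') =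
        Submodule.span K (Set.range ℓ) := by
      apply Submodule.eq_of_le_of_finrank_le inf_le_left
      rw [finrank_span_li hℓ]
      exact h
    have h2 : Submodule.span K (Set.range ℓ) ⊓ Submodule.span K (Set.range ℓ') =
        Submodule.span K (Set.range ℓ') := by
      apply Submodule.eq_of_le_of_finrank_le inf_le_right
      rw [finrank_span_li hℓ']
      exact h
    rw [sect_congr (h1.symm.trans h2), sub_self]
    exact Submodule.zero_mem _
  | succ d ih =>
    intro ℓ ℓ' hℓ hℓ' h
    set U := Submodule.span K (Set.range ℓ) with hU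
    set U' := Submodule.span K (Set.range ℓ') with hU'
    have hUi : Module.finrank K U = i := finrank_span_li hℓ
    have hUi' : Module.finrank K U' = i := finrank_span_li hℓ'
    by_cases hlt : i ≤ Module.finrank K (U ⊓ U' : Submodule K (Fin N → K)) + d
    · exact ih ℓ ℓ' hℓ hℓ' hlt
    · push Not at hlt
      obtain ⟨p, rfl⟩ : ∃ p, i = p + 1 := ⟨i - 1, by omega⟩
      -- a form in the second space which is not in the first one
      obtain ⟨v, hvU', hvU⟩ : ∃ v ∈ U', v ∉ U := by
        by_contra hcon
        push Not at hcon
        have h1 : U ⊓ U' = U' := inf_eq_right.2 hcon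
        rw [h1, hUi'] at hlt
        omega
      -- a basis of the first space which extends a basis of the intersection
      set a := Module.finrank K (U ⊓ U' : Submodule K (Fin N → K)) with ha
      let b : Module.Basis (Fin a) K (U ⊓ U' : Submodule K (Fin N → K)) :=
        Module.finBasisOfFinrankEq K _ rfl
      have hbU : LinearIndependent K
          (fun k => (⟨(b k : Fin N → K), (b k).2.1⟩ : U)) := by
        apply LinearIndependent.of_comp U.subtype
        exact b.linearIndependent.map' (U ⊓ U').subtype (Submodule.ker_subtype _)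
      obtain ⟨hk, w, hw, hwb⟩ := exists_extend_li' _ hbU hUi
      have hwV : LinearIndependent K (fun k => (w k : Fin N → K)) :=
        hw.map' U.subtype (Submodule.ker_subtype U)
      set w₀ : Fin p → Fin N → K := fun k => (w k.castSucc : Fin N → K) with hw₀
      set u : Fin N → K := (w (Fin.last p) : Fin N → K) with hu
      have hw₀li : LinearIndependent K w₀ :=
        hwV.comp Fin.castSucc (Fin.castSucc_injective p)
      have hw₀U : Submodule.span K (Set.range w₀) ≤ U := by
        rw [Submodule.span_le]
        rintro _ ⟨k, rfl⟩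
        exact (w k.castSucc).2
      have huw : u ∉ Submodule.span K (Set.range w₀) := by
        have h1 := (linearIndependent_finSnoc (v := w₀) (x := u)).1 (by
          have h2 : (Fin.snoc w₀ u : Fin (p + 1) → Fin N → K) = fun k => (w k : Fin N → K) := by
            funext k
            refine Fin.lastCases ?_ (fun k => ?_) k
            · rw [Fin.snoc_last]
            · rw [Fin.snoc_castSucc]
          rw [h2]
          exact hwV)
        exact h1.2
      have hvw : v ∉ Submodule.span K (Set.range w₀) := fun h1 => hvU (hw₀U h1)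
      have hint : U ⊓ U' ≤ Submodule.span K (Set.range w₀) := by
        have h1 : U ⊓ U' = Submodule.span K (Set.range fun k => (b k : Fin N → K)) := by
          have h2 := congrArg (Submodule.map (U ⊓ U').subtype) b.span_eq
          rw [Submodule.map_span, ← Set.range_comp, Submodule.map_top, Submodule.range_subtype]
            at h2
          exact h2.symm
        rw [h1, Submodule.span_le]
        rintro _ ⟨k, rfl⟩
        apply Submodule.subset_span
        have hlt' : a ≤ p := by omega
        refine ⟨⟨k.val, by omega⟩, ?_⟩
        have h3 := congrArg (Subtype.val) (hwb k)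
        exact h3
      have hcons : LinearIndependent K (Fin.cons v w₀ : Fin (p + 1) → Fin N → K) :=
        linearIndependent_finCons.2 ⟨hw₀li, hvw⟩
      have hconsu : LinearIndependent K (Fin.cons u w₀ : Fin (p + 1) → Fin N → K) :=
        linearIndependent_finCons.2 ⟨hw₀li, huw⟩
      have hspanu : Submodule.span K (Set.range (Fin.cons u w₀ : Fin (p + 1) → Fin N → K)) = U := by
        apply Submodule.eq_of_le_of_finrank_eq
        · rw [Submodule.span_le]
          rintro _ ⟨k, rfl⟩
          refine Fin.cases ?_ (fun k => ?_) k
          · exact (w (Fin.last p)).2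
          · exact (w k.castSucc).2
        · rw [finrank_span_li hconsu, hUi]
      have h1 : sect t F ℓ = sect t F (Fin.cons u w₀ : Fin (p + 1) → Fin N → K) :=
        sect_congr (by rw [hspanu])
      have h2 := exchange hF hs hw₀li (by omega) huw hvw ht
      have h3 := ih (Fin.cons v w₀) ℓ' hcons hℓ' (by
        have h4 : U ⊓ U' < Submodule.span K
            (Set.range (Fin.cons v w₀ : Fin (p + 1) → Fin N → K)) ⊓ U' := by
          refine lt_of_le_of_ne (le_inf (hint.trans ?_) inf_le_right) ?_
          · apply Submodule.span_mono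
            rintro _ ⟨k, rfl⟩
            exact ⟨k.succ, rfl⟩
          · intro h5
            have h6 : v ∈ U ⊓ U' := by
              rw [h5]
              exact ⟨Submodule.subset_span ⟨0, rfl⟩, hvU'⟩
            exact hvU h6.1
        have h7 := Submodule.finrank_lt_finrank_of_lt h4
        rw [← hU']
        omega)
      rw [h1]
      have h8 := Submodule.add_mem _ h2 h3
      rw [sub_add_sub_cancel] at h8
      exact h8

/-- **The class of a linear section** of a smooth hypersurface: all linear sections of the same
codimension are rationally equivalent. -/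
theorem sect_ratEq {i e t : ℕ} {F : MvPolynomial (Fin N) K} (hF : IsHomogeneous F (e + 2))
    (hs : Smooth F) (hiN : 2 * i < N) (ht : t + i + 1 = N) {ℓ ℓ' : Fin i → Fin N → K}
    (hℓ : LinearIndependent K ℓ) (hℓ' : LinearIndependent K ℓ') :
    sect t F ℓ - sect t F ℓ' ∈ RatEq F t :=
  sect_sub_mem hF hs hiN ht i ℓ ℓ' hℓ hℓ' (Nat.le_add_left _ _)

end Pool.Agent.W5h94.CU
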