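import Pool.Agent.W5h94.CU.Defs

set_option autoImplicit false

/-!
# The corank of the fibre forms: the identities
-/

universe u

namespace Pool.Agent.W5h94.CU

open MvPolynomial Pool.Agent.W5h86.HC

section

variable {K L : Type u} [Field K] [Field L] [Algebra K L] {m e : ℕ} (w : ℕ → L)

/-- the coefficients, extended by zero -/
def wx (m e : ℕ) (w : ℕ → L) (i : Fin (m + e + 1)) : L := if i.val ≤ e then w i.val else 0

lemma Wm_zero (i : Fin (m + e + 1)) : Wm m e w i 0 = wx m e w i := by
  unfold Wm wx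
  split_ifs with h1 h2 h3
  · rfl
  · exact absurd rfl h2
  · exfalso
    apply h1
    have : (0 : Fin (m + 1)).val + e = i.val := h3
    simp at this
    omega
  · rfl

lemma Wm_ne {i : Fin (m + e + 1)} (hi : i.val ≤ e) {j : Fin (m + 1)} (hj : j ≠ 0) :
    Wm m e w i j = 0 := by
  unfold Wm
  rw [if_pos hi, if_neg hj]

lemma lsub_Wm_X {i : Fin (m + e + 1)} (hi : i.val ≤ e) :
    lsub K (Wm m e w) (X i) = C (wx m e w i) * X 0 := by
  rw [lsub_X, Finset.sum_eq_single 0, Wm_zero]
  · intro j _ hj
    rw [Wm_ne w hi hj, map_zero, zero_mul]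
  · simp

variable (K) in
/-- the quadratic form of the fibre -/
noncomputable def Qf (w : ℕ → L) (H : Fin (m + e + 1) → MvPolynomial (Fin (m + e + 1)) K) :
    MvPolynomial (Fin (m + 1)) L :=
  ∑ i, C (wx m e w i) * lsub K (Wm m e w) (H i)

lemma lsub_eq {F : MvPolynomial (Fin (m + e + 1)) K}
    {H : Fin (m + e + 1) → MvPolynomial (Fin (m + e + 1)) K}
    (h1 : ∀ i : Fin (m + e + 1), ¬ i.val ≤ e → H i = 0) (h2 : F = ∑ i, X i * H i) :
    lsub K (Wm m e w) F = X 0 * Qf K w H := by
  rw [h2, map_sum, Qf, Finset.mul_sum]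
  refine Finset.sum_congr rfl fun i _ => ?_
  rw [map_mul]
  by_cases hi : i.val ≤ e
  · rw [lsub_Wm_X w hi]
    ring
  · rw [h1 i hi, map_zero]
    ring

variable {w}

/-- the derivatives of the quadratic form -/
lemma aeval_pderiv_Qf {H : Fin (m + e + 1) → MvPolynomial (Fin (m + e + 1)) K}
    {v : Fin (m + 1) → L} {x : Fin (m + e + 1) → L}
    (hx : ∀ i, x i = ∑ j, Wm m e w i j * v j) (j : Fin (m + 1)) :
    aeval v (pderiv j (Qf K w H)) =
      ∑ i, wx m e w i * ∑ i', Wm m e w i' j * aeval x (pderiv i' (H i)) := by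
  have hx' : (fun i => ∑ j, algebraMap L L (Wm m e w i j) * v j) = x := by
    funext i
    rw [hx]
    rfl
  rw [Qf, map_sum, map_sum]
  refine Finset.sum_congr rfl fun i _ => ?_
  rw [pderiv_C_mul, map_mul, aeval_C, pderiv_lsub, map_sum]
  change wx m e w i * _ = _
  congr 1
  refine Finset.sum_congr rfl fun i' _ => ?_
  rw [map_mul, aeval_C, aeval_lsub, hx']
  rfl

lemma aeval_Qf {H : Fin (m + e + 1) → MvPolynomial (Fin (m + e + 1)) K}
    {v : Fin (m + 1) → L} {x : Fin (m + e + 1) → L}
    (hx : ∀ i, x i = ∑ j, Wm m e w i j * v j) :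
    aeval v (Qf K w H) = ∑ i, wx m e w i * aeval x (H i) := by
  have hx' : (fun i => ∑ j, algebraMap L L (Wm m e w i j) * v j) = x := by
    funext i
    rw [hx]
    rfl
  rw [Qf, map_sum]
  refine Finset.sum_congr rfl fun i _ => ?_
  rw [map_mul, aeval_C, aeval_lsub, hx']
  rfl

lemma D_x (D : Derivation K L L) {v : Fin (m + 1) → L} {x : Fin (m + e + 1) → L}
    (hx : ∀ i, x i = ∑ j, Wm m e w i j * v j) (i : Fin (m + e + 1)) :
    D (x i) = D (wx m e w i) * v 0 + ∑ j, Wm m e w i j * D (v j) := by
  rw [hx, map_sum]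
  have h1 : ∀ j, D (Wm m e w i j * v j) = (if j = 0 then D (wx m e w i) * v 0 else 0) +
      Wm m e w i j * D (v j) := by
    intro j
    rw [D.leibniz, smul_eq_mul, smul_eq_mul, add_comm]
    congr 1
    by_cases hj : j = 0
    · rw [if_pos hj, hj, Wm_zero, mul_comm]
    · rw [if_neg hj]
      have h2 : D (Wm m e w i j) = 0 := by
        unfold Wm
        split_ifs
        · exact map_zero D
        · exact D.map_one_eq_zero
        · exact map_zero D
      rw [h2, mul_zero]
  rw [Finset.sum_congr rfl fun j _ => h1 j, Finset.sum_add_distrib,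
    Finset.sum_ite_eq' Finset.univ (0 : Fin (m + 1))]
  simp

/-- **The relation given by a derivation.** -/
theorem key_D (D : Derivation K L L) {F : MvPolynomial (Fin (m + e + 1)) K}
    {H : Fin (m + e + 1) → MvPolynomial (Fin (m + e + 1)) K}
    (h1 : ∀ i : Fin (m + e + 1), ¬ i.val ≤ e → H i = 0) (h2 : F = ∑ i, X i * H i)
    {v : Fin (m + 1) → L} (hv0 : aeval v (Qf K w H) = 0)
    (hv : ∀ j, aeval v (pderiv j (Qf K w H)) = 0) {x : Fin (m + e + 1) → L}
    (hx : ∀ i, x i = ∑ j, Wm m e w i j * v j) :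
    ∑ k, D (wx m e w k) * aeval x (pderiv k F) = 0 := by
  classical
  have hxe : ∀ i : Fin (m + e + 1), i.val ≤ e → x i = wx m e w i * v 0 := by
    intro i hi
    rw [hx, Finset.sum_eq_single 0, Wm_zero]
    · intro j _ hj
      rw [Wm_ne w hi hj, zero_mul]
    · simp
  have hFk : ∀ k, aeval x (pderiv k F) = aeval x (H k) +
      ∑ i, wx m e w i * v 0 * aeval x (pderiv k (H i)) := by
    intro k
    rw [h2, map_sum, map_sum]
    have h3 : ∀ i, aeval x (pderiv k (X i * H i)) = (if i = k then aeval x (H i) else 0) +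
        wx m e w i * v 0 * aeval x (pderiv k (H i)) := by
      intro i
      rw [pderiv_mul, map_add, map_mul, map_mul, aeval_X]
      congr 1
      · by_cases hik : i = k
        · rw [if_pos hik, hik, pderiv_X_self, map_one, one_mul]
        · rw [if_neg hik, pderiv_X_of_ne hik, map_zero, zero_mul]
      · by_cases hi : i.val ≤ e
        · rw [hxe i hi]
        · rw [h1 i hi, map_zero, map_zero, mul_zero, mul_zero]
    rw [Finset.sum_congr rfl fun i _ => h3 i, Finset.sum_add_distrib,
      Finset.sum_ite_eq' Finset.univ k]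
    simp
  -- apply the derivation to the value of the quadratic form
  have h4 := congrArg D hv0
  rw [map_zero, aeval_Qf hx, map_sum] at h4
  have h5 : ∀ i, D (wx m e w i * aeval x (H i)) = D (wx m e w i) * aeval x (H i) +
      ((∑ k, D (wx m e w k) * (wx m e w i * v 0 * aeval x (pderiv k (H i)))) +
        ∑ j, D (v j) * (wx m e w i * ∑ i', Wm m e w i' j * aeval x (pderiv i' (H i)))) := by
    intro i
    rw [D.leibniz, smul_eq_mul, smul_eq_mul, derivation_aeval, add_comm]
    congr 1
    · ring
    · have h6 : ∀ i', aeval x (pderiv i' (H i)) * D (x i') =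
          aeval x (pderiv i' (H i)) * (D (wx m e w i') * v 0) +
          ∑ j, D (v j) * (Wm m e w i' j * aeval x (pderiv i' (H i))) := by
        intro i'
        rw [D_x D hx, mul_add, Finset.mul_sum]
        congr 1
        refine Finset.sum_congr rfl fun j _ => ?_
        ring
      rw [Finset.sum_congr rfl fun i' _ => h6 i', Finset.sum_add_distrib, mul_add,
        Finset.sum_comm, Finset.mul_sum, Finset.mul_sum]
      congr 1
      · refine Finset.sum_congr rfl fun k _ => ?_
        ring
      · refine Finset.sum_congr rfl fun j _ => ?_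
        rw [← Finset.mul_sum]
        ring
  rw [Finset.sum_congr rfl fun i _ => h5 i, Finset.sum_add_distrib, Finset.sum_add_distrib] at h4
  have h6 : ∑ i, ∑ j, D (v j) * (wx m e w i * ∑ i', Wm m e w i' j *
      aeval x (pderiv i' (H i))) = 0 := by
    rw [Finset.sum_comm]
    refine Finset.sum_eq_zero fun j _ => ?_
    rw [← Finset.mul_sum, ← aeval_pderiv_Qf hx, hv, mul_zero]
  rw [h6, add_zero] at h4
  rw [← h4, Finset.sum_congr rfl fun k _ => by rw [hFk k, mul_add, Finset.mul_sum],
    Finset.sum_add_distrib]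
  congr 1
  rw [Finset.sum_comm]

end

end Pool.Agent.W5h94.CU
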