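import Pool.Agent.W5h94.CU.Zero

set_option autoImplicit false

/-!
# Derivations, radicals of quadratic forms
-/

universe u

namespace Pool.Agent.W5h94.CU

open MvPolynomial Pool.Agent.W5h86.HC

/-- Derivations dual to algebraically independent elements. -/
lemma exists_der {K L : Type u} [Field K] [CharZero K] [Field L] [Algebra K L] {δ : ℕ}
    (z : Fin δ → L) (hz : AlgebraicIndependent K z) (l : Fin δ) :
    ∃ D : Derivation K L L, ∀ j, D (z j) = if j = l then 1 else 0 := by
  let U := FractionRing (MvPolynomial (Fin δ) K)
  have hinj : Function.Injective (aeval z : MvPolynomial (Fin δ) K →ₐ[K] L) := hz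
  let ψ : U →ₐ[K] L := IsFractionRing.liftAlgHom (K := U) hinj
  let i1 : Algebra U L := ψ.toRingHom.toAlgebra
  have i2 : IsScalarTower K U L := IsScalarTower.of_algebraMap_eq fun x => (ψ.commutes x).symm
  obtain ⟨D, hD⟩ := exists_derivation (k := K) (L := L) U l
  refine ⟨D, fun j => ?_⟩
  have h1 : algebraMap U L (algebraMap (MvPolynomial (Fin δ) K) U (X j)) = z j := by
    change ψ (algebraMap (MvPolynomial (Fin δ) K) U (X j)) = z j
    have h2 : ψ (algebraMap (MvPolynomial (Fin δ) K) U (X j)) =
        (aeval z : MvPolynomial (Fin δ) K →ₐ[K] L) (X j) := by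
      simp only [ψ, IsFractionRing.liftAlgHom_apply, IsFractionRing.lift_algebraMap]
      rfl
    rw [h2, aeval_X]
  rw [← h1]
  exact hD j

/-- The symmetric matrix of a quadratic form. -/
noncomputable def gram {L : Type u} [Field L] {p : ℕ} (Q : MvPolynomial (Fin p) L) :
    Matrix (Fin p) (Fin p) L :=
  fun i j => coeff (Finsupp.single j 1) (pderiv i Q)

lemma gram_symm {L : Type u} [Field L] {p : ℕ} (Q : MvPolynomial (Fin p) L) (i j : Fin p) :
    gram Q i j = gram Q j i := by
  unfold gram
  rw [coeff_pderiv, coeff_pderiv, add_comm (Finsupp.single j 1)]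
  by_cases h : i = j
  · rw [h]
  · rw [Finsupp.single_eq_of_ne h, Finsupp.single_eq_of_ne (Ne.symm h)]

lemma linear_eq {L : Type u} [Field L] {p : ℕ} {f : MvPolynomial (Fin p) L}
    (hf : IsHomogeneous f 1) : f = ∑ j, C (coeff (Finsupp.single j 1) f) * X j := by
  classical
  ext m
  rw [coeff_sum]
  simp only [coeff_C_mul, coeff_X, mul_ite, mul_one, mul_zero]
  by_cases hm : m.degree = 1
  · obtain ⟨j, hj⟩ : ∃ j, m = Finsupp.single j 1 := by
      obtain ⟨j, hj⟩ : ∃ j, m j ≠ 0 := by
        by_contra hcon
        push Not at hcon
        have h1 : m = 0 := Finsupp.ext hcon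
        rw [h1] at hm
        simp at hm
      refine ⟨j, ?_⟩
      have h2 : m = Finsupp.single j 1 + (m - Finsupp.single j 1) := by
        rw [add_tsub_cancel_of_le]
        rw [Finsupp.single_le_iff]
        omega
      have h3 := congrArg Finsupp.degree h2
      rw [map_add, hm, Finsupp.degree_single] at h3
      have h4 : (m - Finsupp.single j 1).degree = 0 := by omega
      rw [Finsupp.degree_eq_zero_iff] at h4
      rw [h4, add_zero] at h2
      exact h2
    subst hj
    rw [Finset.sum_eq_single j]
    · rw [if_pos rfl]
    · intro k _ hk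
      rw [if_neg]
      intro h
      exact hk ((Finsupp.single_left_injective one_ne_zero h))
    · simp
  · rw [hf.coeff_eq_zero hm, Finset.sum_eq_zero]
    intro j _
    rw [if_neg]
    rintro rfl
    exact hm (by simp)

/-- The partial derivatives of a quadratic form. -/
lemma aeval_pderiv_gram {L L' : Type u} [Field L] [Field L'] [Algebra L L'] {p : ℕ}
    {Q : MvPolynomial (Fin p) L} (hQ : IsHomogeneous Q 2) (v : Fin p → L') (i : Fin p) :
    aeval v (pderiv i Q) = ((gram Q).map (algebraMap L L')).mulVec v i := by
  have h1 := linear_eq (isHomogeneous_pderiv hQ i)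
  rw [h1, map_sum]
  refine Finset.sum_congr rfl fun j _ => ?_
  rw [map_mul, aeval_C, aeval_X]
  rfl

/-- A quadratic form has nondegenerate restrictions of all dimensions up to its rank. -/
theorem hasSec_of_corank {L : Type u} [Field L] [CharZero L] {p n : ℕ}
    {Q : MvPolynomial (Fin p) L} (hQ : IsHomogeneous Q 2)
    (hn : n + Module.finrank L (LinearMap.ker (gram Q).mulVecLin) ≤ p) : HasSec n Q := by
  classical
  set V := LinearMap.ker (gram Q).mulVecLin with hV
  obtain ⟨U, hU⟩ := Submodule.exists_isCompl V
  have hdim : Module.finrank L V + Module.finrank L U = p := by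
    have h1 := Submodule.finrank_add_eq_of_isCompl hU
    rw [Module.finrank_fin_fun] at h1
    exact h1
  obtain ⟨q, hq⟩ : ∃ q, Module.finrank L U = n + q := ⟨Module.finrank L U - n, by omega⟩
  have key : HasSec (n + q) Q := by
    let b := Module.finBasisOfFinrankEq L U hq
    have hli : LinearIndependent L (fun i => (b i : Fin p → L)) :=
      b.linearIndependent.map' U.subtype (Submodule.ker_subtype U)
    obtain ⟨hk, g, g', hg, hg', hgb⟩ := exists_coord _ hli
    refine ⟨fun i j => (b j : Fin p → L) i, fun j i => g i (Fin.castLE hk j), ?_, ?_⟩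
    · ext j l
      have h0 : ((Matrix.of fun (j : Fin (n + q)) i => g i (Fin.castLE hk j)) *
          (Matrix.of fun i (j : Fin (n + q)) => (b j : Fin p → L) i)) j l =
          ∑ i, g i (Fin.castLE hk j) * (b l : Fin p → L) i := Matrix.mul_apply
      have h1 : ∀ i, g i (Fin.castLE hk j) * (b l : Fin p → L) i =
          g' (Fin.castLE hk l) i * g i (Fin.castLE hk j) := by
        intro i
        rw [hgb, mul_comm]
      have h2 : ∑ i, g i (Fin.castLE hk j) * (b l : Fin p → L) i =
          (1 : Matrix (Fin (n + q)) (Fin (n + q)) L) j l := by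
        rw [Finset.sum_congr rfl fun i _ => h1 i, ← Matrix.mul_apply, hg', Matrix.one_apply,
          Matrix.one_apply]
        simp only [Fin.castLE_inj, eq_comm]
      exact h0.trans h2
    · set A : Matrix (Fin p) (Fin (n + q)) L := fun i j => (b j : Fin p → L) i with hA
      have hAc : ∀ c : Fin (n + q) → L, A.mulVec c ∈ U := by
        intro c
        have h1 : A.mulVec c = ((∑ j, c j • b j : U) : Fin p → L) := by
          funext i
          rw [Matrix.mulVec, dotProduct, Submodule.coe_sum, Finset.sum_apply]
          refine Finset.sum_congr rfl fun j _ => ?_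
          simp only [hA, Submodule.coe_smul, Pi.smul_apply, smul_eq_mul]
          ring
        rw [h1]
        exact Subtype.coe_prop _
      have hAi : ∀ c : Fin (n + q) → L, A.mulVec c = 0 → c = 0 := by
        intro c hc
        rw [Fintype.linearIndependent_iff] at hli
        funext j
        refine hli c ?_ j
        rw [← hc]
        funext i
        rw [Matrix.mulVec, dotProduct, Finset.sum_apply]
        refine Finset.sum_congr rfl fun j _ => ?_
        simp only [hA, Pi.smul_apply, smul_eq_mul]
        ring
      have hdet : (A.transpose * gram Q * A).det ≠ 0 := by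
        intro h0
        obtain ⟨c, hc, hc0⟩ := Matrix.exists_mulVec_eq_zero_iff.2 h0
        apply hc
        apply hAi
        set u := A.mulVec c with hu
        have h1 : A.transpose.mulVec ((gram Q).mulVec u) = 0 := by
          rw [hu, Matrix.mulVec_mulVec, Matrix.mulVec_mulVec]
          exact hc0
        -- all vectors are orthogonal to `u`
        have h2 : ∀ x : Fin p → L, x ⬝ᵥ (gram Q).mulVec u = 0 := by
          intro x
          have h3 : x ∈ V ⊔ U := by
            rw [hU.sup_eq_top]
            exact Submodule.mem_top
          obtain ⟨y, hy, z, hz, rfl⟩ := Submodule.mem_sup.1 h3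
          have hy0 : (gram Q).mulVec y = 0 := hy
          have hsymm : (gram Q).transpose = gram Q := by
            ext i j
            exact gram_symm Q j i
          have h4 : y ⬝ᵥ (gram Q).mulVec u = 0 := by
            rw [Matrix.dotProduct_mulVec, ← Matrix.mulVec_transpose, hsymm, hy0, zero_dotProduct]
          have h5 : z ⬝ᵥ (gram Q).mulVec u = 0 := by
            obtain ⟨a, ha⟩ : ∃ a : Fin (n + q) → L, z = A.mulVec a := by
              refine ⟨fun j => b.repr ⟨z, hz⟩ j, ?_⟩
              have h6 := b.sum_repr ⟨z, hz⟩
              have h7 := congrArg (fun y : U => (y : Fin p → L)) h6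
              simp only at h7
              refine h7.symm.trans ?_
              funext i
              rw [Matrix.mulVec, dotProduct, Submodule.coe_sum, Finset.sum_apply]
              refine Finset.sum_congr rfl fun j _ => ?_
              simp only [hA, Submodule.coe_smul, Pi.smul_apply, smul_eq_mul]
              ring
            rw [ha, dotProduct_comm, Matrix.dotProduct_mulVec, ← Matrix.mulVec_transpose, h1,
              zero_dotProduct]
          rw [add_dotProduct, h4, h5, add_zero]
        have h8 : (gram Q).mulVec u = 0 := by
          funext i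
          have h9 := h2 (Pi.single i 1)
          rw [single_one_dotProduct] at h9
          exact h9
        have h10 : u ∈ V := h8
        have h11 : u ∈ V ⊓ U := ⟨h10, hAc c⟩
        rw [hU.inf_eq_bot] at h11
        exact h11
      rw [smooth_lsub_self_iff]
      intro L' _ _ c hc _
      by_contra hcon
      push Not at hcon
      apply hc
      have h1 : ((A.transpose * gram Q * A).map (algebraMap L L')).mulVec c = 0 := by
        funext j
        rw [Pi.zero_apply, ← hcon j]
        have h2 : (fun i => ∑ j, algebraMap L L' (A i j) * c j) =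
            (A.map (algebraMap L L')).mulVec c := rfl
        simp only [aeval_pderiv_gram hQ, h2]
        rw [Matrix.map_mul, Matrix.map_mul, ← Matrix.mulVec_mulVec, ← Matrix.mulVec_mulVec]
        rfl
      have h2 : ((A.transpose * gram Q * A).map (algebraMap L L')).det ≠ 0 := by
        have h3 := RingHom.map_det (algebraMap L L') (A.transpose * gram Q * A)
        rw [RingHom.mapMatrix_apply] at h3
        rw [← h3, Ne, map_eq_zero]
        exact hdet
      by_contra hc0
      exact h2 (Matrix.exists_mulVec_eq_zero_iff.1 ⟨c, hc0, h1⟩)
  have hpred : ∀ q n, HasSec (n + q) Q → HasSec n Q := by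
    intro q
    induction q with
    | zero => exact fun n h => h
    | succ q ih => exact fun n h => ih n h.pred
  exact hpred q n key

end Pool.Agent.W5h94.CU
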