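import Pool.Agent.W5h94.CU.Corank
import Pool.Agent.W5h94.CU.Free

set_option autoImplicit false

/-!
# Smooth cubic hypersurfaces containing a linear subspace, without coordinates
-/

universe u

namespace Pool.Agent.W5h94.CU

open MvPolynomial Pool.Agent.W5h86.HC

/-- The theorem for a linear subspace given by a matrix. -/
theorem cubic_matrix {K : Type u} [Field K] [CharZero K] {N r i : ℕ}
    {F : MvPolynomial (Fin N) K} (hF : IsHomogeneous F 3) (hs : Smooth F)
    (A : Matrix (Fin N) (Fin (r + 1)) K) (A' : Matrix (Fin (r + 1)) (Fin N) K)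
    (hA : A' * A = 1) (hAF : lsub K A F = 0) (hi : 2 * i < r) {ℓ : Fin i → Fin N → K}
    (hℓ : LinearIndependent K ℓ) (hℓA : ∀ k, Matrix.vecMul (ℓ k) A = 0) {t : ℕ}
    (ht : t + i + 1 = N) {P : Ideal (MvPolynomial (Fin N) K)} (hP : IsSub t 1 P) (hFP : F ∈ P) :
    pt P ∈ Submodule.span ℚ {sect t F ℓ} ⊔ RatEq F t := by
  obtain ⟨e, g, g', hN, hg, hg', hgF, hgℓ⟩ := exists_adapted hs A A' hA hAF hℓ hℓA
  subst hN
  refine pt_mem_coord hg hg' (fun P₁ hP₁ hFP₁ => ?_) hP hFP
  rw [hgℓ]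
  exact cubic_main (m := r + 1) (e := e) (isHomogeneous_lsub g hF) (hs.coord hg hg') hgF
    (by omega) (by omega) hP₁ hFP₁

/-- A linear subspace of the affine cone is the image of an injective matrix. -/
lemma exists_matrix {K : Type u} [Field K] [CharZero K] {N r : ℕ} {F : MvPolynomial (Fin N) K}
    (Λ : Submodule K (Fin N → K)) (hΛ : Module.finrank K Λ = r + 1)
    (hΛF : ∀ x ∈ Λ, eval x F = 0) :
    ∃ (A : Matrix (Fin N) (Fin (r + 1)) K) (A' : Matrix (Fin (r + 1)) (Fin N) K), A' * A = 1 ∧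
      lsub K A F = 0 ∧ ∀ k, (fun i => A i k) ∈ Λ := by
  classical
  let b : Module.Basis (Fin (r + 1)) K Λ := Module.finBasisOfFinrankEq K Λ hΛ
  let A : Matrix (Fin N) (Fin (r + 1)) K := Matrix.of fun i k => (b k : Fin N → K) i
  have hAΛ : ∀ y : Fin (r + 1) → K, A.mulVec y ∈ Λ := by
    intro y
    have h1 : A.mulVec y = ((∑ k, y k • b k : Λ) : Fin N → K) := by
      funext i
      simp only [Matrix.mulVec, dotProduct, A, Matrix.of_apply, Submodule.coe_sum,
        Submodule.coe_smul, Finset.sum_apply, Pi.smul_apply, smul_eq_mul]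
      exact Finset.sum_congr rfl fun k _ => mul_comm _ _
    rw [h1]
    exact Submodule.coe_mem _
  have hv : LinearIndependent K (fun k => (b k : Fin N → K)) :=
    b.linearIndependent.map' Λ.subtype (Submodule.ker_subtype Λ)
  obtain ⟨hk, g, g', hg, hg', hgv⟩ := exists_coord _ hv
  refine ⟨A, Matrix.of fun k c => g c (Fin.castLE hk k), ?_, ?_, fun k => (b k).2⟩
  · ext k l
    have h1 : (g' * g) (Fin.castLE hk l) (Fin.castLE hk k) =
        (1 : Matrix (Fin N) (Fin N) K) (Fin.castLE hk l) (Fin.castLE hk k) := by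
      rw [hg']
    rw [Matrix.mul_apply] at h1 ⊢
    have h2 : ∀ c, (Matrix.of fun k c => g c (Fin.castLE hk k)) k c * A c l =
        g' (Fin.castLE hk l) c * g c (Fin.castLE hk k) := by
      intro c
      rw [hgv]
      exact mul_comm _ _
    rw [Finset.sum_congr rfl fun c _ => h2 c, h1, Matrix.one_apply, Matrix.one_apply]
    by_cases h : k = l
    · rw [if_pos (by rw [h]), if_pos h]
    · rw [if_neg (fun h3 => h (Fin.castLE_injective hk h3).symm), if_neg h]
  · apply MvPolynomial.funext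
    intro y
    rw [map_zero]
    have h1 : eval y (lsub K A F) = eval (A.mulVec y) F := by
      have h2 := aeval_lsub (L := K) A F y
      rw [aeval_eq_eval, aeval_eq_eval] at h2
      exact h2
    rw [h1]
    exact hΛF _ (hAΛ y)

/-- **Smooth cubic hypersurfaces which contain a linear subspace.** -/
theorem cubic_linear {K : Type u} [Field K] [CharZero K] {N r i : ℕ}
    {F : MvPolynomial (Fin N) K} (hF : IsHomogeneous F 3) (hs : Smooth F)
    (Λ : Submodule K (Fin N → K)) (hΛ : Module.finrank K Λ = r + 1)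
    (hΛF : ∀ x ∈ Λ, eval x F = 0) (hi : 2 * i < r) {ℓ : Fin i → Fin N → K}
    (hℓ : LinearIndependent K ℓ) (hℓΛ : ∀ k, ∀ x ∈ Λ, ℓ k ⬝ᵥ x = 0) {t : ℕ}
    (ht : t + i + 1 = N) {P : Ideal (MvPolynomial (Fin N) K)} (hP : IsSub t 1 P) (hFP : F ∈ P) :
    pt P ∈ Submodule.span ℚ {sect t F ℓ} ⊔ RatEq F t := by
  obtain ⟨A, A', hA, hAF, hAΛ⟩ := exists_matrix Λ hΛ hΛF
  refine cubic_matrix hF hs A A' hA hAF hi hℓ (fun k => ?_) ht hP hFP
  funext c
  exact hℓΛ k _ (hAΛ c)

end Pool.Agent.W5h94.CU
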