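import Pool.Agent.W5h94.CU.Step

set_option autoImplicit false

/-!
# Hypersurfaces which are graphs outside of a hyperplane
-/

universe u

namespace Pool.Agent.W5h94.CU

open MvPolynomial Pool.Agent.W5h86.HC

variable {K : Type u} [Field K] {e : ℕ}

/-- The form `H + a x₀ x_last`, where `x_last` does not occur in `H`. -/
noncomputable def gr (H : MvPolynomial (Fin (e + 1)) K) (a : K) : MvPolynomial (Fin (e + 2)) K :=
  rename Fin.castSucc H + C a * (X 0 * X (Fin.last (e + 1)))

lemma isHomogeneous_gr {H : MvPolynomial (Fin (e + 1)) K} (hH : IsHomogeneous H 2) (a : K) :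
    IsHomogeneous (gr H a) 2 := by
  refine IsHomogeneous.add (hH.rename_isHomogeneous) (IsHomogeneous.C_mul ?_ _)
  exact (isHomogeneous_X K _).mul (isHomogeneous_X K _)

/-- The shift of the last variable. -/
noncomputable def shift (K : Type u) [Field K] (e : ℕ) :
    MvPolynomial (Fin (e + 2)) K →ₐ[K] MvPolynomial (Fin (e + 2)) K :=
  aeval fun i => if i = Fin.last (e + 1) then X i + 1 else X i

lemma shift_rename (H : MvPolynomial (Fin (e + 1)) K) :
    shift K e (rename Fin.castSucc H) = rename Fin.castSucc H := by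
  have h : (shift K e).comp (rename Fin.castSucc) = rename Fin.castSucc := by
    apply MvPolynomial.algHom_ext
    intro i
    rw [AlgHom.comp_apply, rename_X]
    unfold shift
    rw [aeval_X, if_neg (Fin.castSucc_ne_last i)]
  exact DFunLike.congr_fun h H

lemma shift_gr (H : MvPolynomial (Fin (e + 1)) K) (a : K) :
    shift K e (gr H a) - gr H a = C a * X 0 := by
  unfold gr
  rw [map_add, shift_rename, map_mul, map_mul]
  have h0 : shift K e (X 0) = X 0 := by
    unfold shift
    rw [aeval_X, if_neg]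
    intro h
    have := congrArg Fin.val h
    simp at this
  have h1 : shift K e (X (Fin.last (e + 1))) = X (Fin.last (e + 1)) + 1 := by
    unfold shift
    rw [aeval_X, if_pos rfl]
  have h2 : shift K e (C a) = C a := by
    unfold shift
    rw [aeval_C]
    rfl
  rw [h0, h1, h2]
  ring

lemma gr_ne_zero (H : MvPolynomial (Fin (e + 1)) K) {a : K} (ha : a ≠ 0) : gr H a ≠ 0 := by
  intro h
  have h1 := shift_gr H a
  rw [h, map_zero, sub_zero] at h1
  have h2 : (C a * X 0 : MvPolynomial (Fin (e + 2)) K) ≠ 0 :=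
    mul_ne_zero (by rw [Ne, map_eq_zero_iff _ (C_injective _ _)]; exact ha) (X_ne_zero _)
  exact h2 h1.symm

lemma degreeOf_gr (H : MvPolynomial (Fin (e + 1)) K) (a : K) :
    degreeOf (Fin.last (e + 1)) (gr H a) ≤ 1 := by
  unfold gr
  refine (degreeOf_add_le _ _ _).trans (max_le ?_ ?_)
  · have h1 : degreeOf (Fin.last (e + 1)) (rename Fin.castSucc H) = 0 := by
      by_contra h4
      have h5 : Fin.last (e + 1) ∈ (rename Fin.castSucc H).vars := by
        classical
        rw [vars_def, Multiset.mem_toFinset, ← Multiset.count_ne_zero]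
        rw [degreeOf_def] at h4
        exact h4
      obtain ⟨j, -, hj⟩ := mem_vars_rename _ _ h5
      exact Fin.castSucc_ne_last j hj
    omega
  · refine (degreeOf_C_mul_le _ _ _).trans ?_
    refine (degreeOf_mul_le _ _ _).trans ?_
    have h0 : (Fin.last (e + 1) : Fin (e + 2)) ≠ 0 := by
      intro h
      have := congrArg Fin.val h
      simp at this
    rw [degreeOf_X_of_ne h0, degreeOf_X_self]

/-- A polynomial without the last variable is fixed by the shift. -/
lemma shift_of_degreeOf {g : MvPolynomial (Fin (e + 2)) K}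
    (hg : degreeOf (Fin.last (e + 1)) g = 0) : shift K e g = g := by
  classical
  obtain ⟨q, rfl⟩ := exists_rename_eq_of_vars_subset_range g (Fin.castSucc : Fin (e + 1) → _)
    (Fin.castSucc_injective _) (by
      intro i hi
      have h1 : i ≠ Fin.last (e + 1) := by
        rintro rfl
        rw [Finset.mem_coe, vars_def, Multiset.mem_toFinset, ← Multiset.count_ne_zero] at hi
        rw [degreeOf_def] at hg
        exact hi hg
      exact ⟨i.castPred h1, Fin.castSucc_castPred i h1⟩)
  exact shift_rename q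

lemma uniq_gr (H : MvPolynomial (Fin (e + 1)) K) {a : K} (ha : a ≠ 0) : Uniq (gr H a) := by
  intro P₁ P₂ h₁ h₂ hF₁ hF₂
  have hF := gr_ne_zero H ha
  obtain ⟨g₁, hg₁, hd₁, rfl⟩ := exists_generator hF h₁.prime h₁.trdeg hF₁
  obtain ⟨g₂, hg₂, hd₂, rfl⟩ := exists_generator hF h₂.prime h₂.trdeg hF₂
  by_contra hne
  have hnd : ¬ g₂ ∣ g₁ := by
    intro h3
    apply hne
    apply eq_of_trdeg_eq (K := K) h₁.prime h₂.prime _ h₁.trdeg h₂.trdeg
    rw [Ideal.span_singleton_le_span_singleton]
    exact h3
  have key : ∀ g : MvPolynomial (Fin (e + 2)) K, Prime g → g ∣ gr H a →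
      X 0 ∉ Ideal.span {g} → degreeOf (Fin.last (e + 1)) g ≠ 0 := by
    intro g hg hgd hX hdeg
    obtain ⟨q, hq⟩ := hgd
    have h1 : g ∣ C a * X 0 := by
      rw [← shift_gr H a]
      refine dvd_sub ?_ ?_
      · rw [hq, map_mul, shift_of_degreeOf hdeg]
        exact Dvd.intro _ rfl
      · rw [hq]
        exact Dvd.intro _ rfl
    rcases hg.dvd_or_dvd h1 with h2 | h2
    · apply hg.not_isUnit
      exact isUnit_of_dvd_unit h2 ((isUnit_iff_ne_zero.2 ha).map C)
    · exact hX (Ideal.mem_span_singleton.2 h2)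
  have k1 := key g₁ hg₁ hd₁ h₁.notMem
  have k2 := key g₂ hg₂ hd₂ h₂.notMem
  obtain ⟨r, hr⟩ := hd₁
  rw [hr] at hd₂
  obtain ⟨r', hr'⟩ := (hg₂.dvd_or_dvd hd₂).resolve_left hnd
  have hr0 : r' ≠ 0 := by
    rintro rfl
    rw [hr', mul_zero, mul_zero] at hr
    exact hF hr
  have h3 := degreeOf_gr H a
  rw [hr, hr', degreeOf_mul_eq hg₁.ne_zero (mul_ne_zero hg₂.ne_zero hr0),
    degreeOf_mul_eq hg₂.ne_zero hr0] at h3
  omega

section fib

variable {κ : Type u} [Field κ] [Algebra K κ]

lemma lsub_fibMat_rename (θ : κ) (H : MvPolynomial (Fin (e + 2)) K) :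
    lsub K (fibMat (N := e + 1) θ) (rename Fin.castSucc H) =
      rename Fin.castSucc (lsub K (fibMat (N := e) θ) H) := by
  have h : (lsub K (fibMat (N := e + 1) θ)).comp (rename Fin.castSucc) =
      ((rename Fin.castSucc : MvPolynomial (Fin (e + 1)) κ →ₐ[κ] _).restrictScalars K).comp
        (lsub K (fibMat (N := e) θ)) := by
    apply MvPolynomial.algHom_ext
    intro i
    rw [AlgHom.comp_apply, AlgHom.comp_apply, rename_X]
    rcases fin_cases_two i with h | h | ⟨i', h⟩
    · rw [h, Fin.castSucc_zero, lsub_fibMat_zero, lsub_fibMat_zero]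
      simp
    · have h1 : (Fin.castSucc (1 : Fin (e + 2))) = 1 := rfl
      rw [h, h1, lsub_fibMat_one, lsub_fibMat_one]
      simp
    · have h1 : (Fin.castSucc (i'.succ.succ : Fin (e + 2))) = i'.castSucc.succ.succ := rfl
      rw [h, h1, lsub_fibMat_succ, lsub_fibMat_succ]
      simp
  exact DFunLike.congr_fun h H

lemma lsub_fibMat_last (θ : κ) :
    lsub K (fibMat (N := e + 1) θ) (X (Fin.last (e + 2))) = X (Fin.last (e + 1)) := by
  have h1 : (Fin.last (e + 2)) = (Fin.last e).succ.succ := rfl
  rw [h1, lsub_fibMat_succ]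
  rfl

lemma lsub_fibMat_gr (θ : κ) (H : MvPolynomial (Fin (e + 2)) K) (a : K) :
    lsub K (fibMat (N := e + 1) θ) (gr H a) =
      gr (lsub K (fibMat (N := e) θ) H) (algebraMap K κ a) := by
  unfold gr
  rw [map_add, lsub_fibMat_rename, map_mul, map_mul, lsub_C, lsub_fibMat_zero, lsub_fibMat_last]

end fib

/-- **Graphs**: outside of the hyperplane, the cycles of positive codimension are rationally
equivalent to zero. -/
theorem aff_gr : ∀ (e : ℕ) (K : Type u) [Field K] (H : MvPolynomial (Fin (e + 1)) K) (a : K),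
    a ≠ 0 → IsHomogeneous H 2 → ∀ j, 1 ≤ j → Aff j (gr H a) := by
  intro e
  induction e with
  | zero =>
    intro K _ H a ha hH j hj t ht P hP _
    have := one_le_of_isSub hP
    omega
  | succ e ih =>
    intro K _ H a ha hH j hj
    have hne : ∀ (κ : Type u) [Field κ] [Algebra K κ], algebraMap K κ a ≠ 0 := by
      intro κ _ _ h
      rw [map_eq_zero] at h
      exact ha h
    refine step (isHomogeneous_gr hH a) hj ?_ ?_ ?_
    · rw [lsub_fibMat_gr]
      exact ih _ _ _ (hne _) (isHomogeneous_lsub _ hH) j hj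
    · intro hj2 π _
      rw [lsub_fibMat_gr]
      exact ih _ _ _ (hne _) (isHomogeneous_lsub _ hH) (j - 1) (by omega)
    · intro _
      refine ⟨gr_ne_zero H ha, fun π _ => ?_⟩
      rw [lsub_fibMat_gr]
      exact ⟨gr_ne_zero _ (hne _), uniq_gr _ (hne _)⟩

end Pool.Agent.W5h94.CU
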