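import Pool.Agent.W5h94.CU.Corank1
import Pool.Agent.W5h94.CU.CorA

set_option autoImplicit false

/-!
# The corank of the fibre forms
-/

universe u

namespace Pool.Agent.W5h94.CU

open MvPolynomial Pool.Agent.W5h86.HC

/-- the set of the remaining indices is small -/
lemma card_rest {N e δ k0 : ℕ} (hk0 : k0 ≤ e) {T : Fin δ → ℕ} (hT : ∀ l, T l ≤ e)
    (hTi : Function.Injective T) (hTk : ∀ l, T l ≠ k0) :
    (Finset.univ.filter fun k : Fin N => k.val ≤ e ∧ k.val ≠ k0 ∧ ∀ l, T l ≠ k.val).card + δ ≤
      e := by
  classical
  set R := Finset.univ.filter fun k : Fin N => k.val ≤ e ∧ k.val ≠ k0 ∧ ∀ l, T l ≠ k.val with hR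
  have h1 : (R.image fun k => k.val) ∪ (Finset.univ.image T) ⊆ (Finset.range (e + 1)).erase k0 := by
    intro x hx
    rw [Finset.mem_erase, Finset.mem_range]
    rcases Finset.mem_union.1 hx with h | h
    · obtain ⟨k, hk, rfl⟩ := Finset.mem_image.1 h
      have h2 := (Finset.mem_filter.1 hk).2
      exact ⟨h2.2.1, by omega⟩
    · obtain ⟨l, -, rfl⟩ := Finset.mem_image.1 h
      exact ⟨hTk l, by have := hT l; omega⟩
  have h2 : Disjoint (R.image fun k => k.val) (Finset.univ.image T) := by
    rw [Finset.disjoint_left]
    intro x hx hx'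
    obtain ⟨k, hk, rfl⟩ := Finset.mem_image.1 hx
    obtain ⟨l, -, hl⟩ := Finset.mem_image.1 hx'
    exact (Finset.mem_filter.1 hk).2.2.2 l hl
  have h3 := Finset.card_le_card h1
  rw [Finset.card_union_of_disjoint h2, Finset.card_image_of_injective _ Fin.val_injective,
    Finset.card_image_of_injective _ hTi, Finset.card_univ, Fintype.card_fin,
    Finset.card_erase_of_mem (Finset.mem_range.2 (by omega)), Finset.card_range] at h3
  omega

theorem ker_le {K L : Type u} [Field K] [CharZero K] [Field L] [Algebra K L] {m e δ : ℕ}
    {F : MvPolynomial (Fin (m + e + 1)) K} (hs : Smooth F)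
    (H : Fin (m + e + 1) → MvPolynomial (Fin (m + e + 1)) K) (hH : ∀ i, IsHomogeneous (H i) 2)
    (hH0 : ∀ i : Fin (m + e + 1), e < i.val → H i = 0) (hFH : F = ∑ i, X i * H i)
    (w : ℕ → L) (k0 : ℕ) (hk0 : k0 ≤ e) (hw : w k0 = 1) (T : Fin δ → ℕ) (hT : ∀ l, T l ≤ e)
    (hTi : AlgebraicIndependent K fun l => w (T l)) :
    Module.finrank L (LinearMap.ker
      (gram (∑ i : Fin (m + e + 1), C (w i.val) * lsub K (Wm m e w) (H i))).mulVecLin) + δ ≤ e := by
  classical
  have hH0' : ∀ i : Fin (m + e + 1), ¬ i.val ≤ e → H i = 0 := fun i hi => hH0 i (by omega)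
  have hQQ : (∑ i : Fin (m + e + 1), C (w i.val) * lsub K (Wm m e w) (H i)) = Qf K w H := by
    refine Finset.sum_congr rfl fun i _ => ?_
    by_cases hi : i.val ≤ e
    · rw [wx, if_pos hi]
    · rw [hH0' i hi, map_zero, mul_zero, mul_zero]
  rw [hQQ]
  set Q := Qf K w H with hQ
  have hQ2 : IsHomogeneous Q 2 := by
    rw [← hQQ]
    exact IsHomogeneous.sum _ _ _ fun i _ => (isHomogeneous_lsub _ (hH i)).C_mul _
  have hF3 : IsHomogeneous F 3 := by
    rw [hFH]
    exact IsHomogeneous.sum _ _ _ fun i _ => (isHomogeneous_X K i).mul (hH i)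
  have hlF : lsub K (Wm m e w) F = X 0 * Q := lsub_eq w hH0' hFH
  have hL0 : CharZero L := charZero_of_injective_algebraMap (algebraMap K L).injective
  have hTinj : Function.Injective T := by
    intro l l' h
    exact hTi.injective (by simp only [h])
  have hTk : ∀ l, T l ≠ k0 := by
    intro l h
    have h1 := hTi.transcendental l
    simp only [h, hw] at h1
    exact h1 isAlgebraic_one
  set V := LinearMap.ker (gram Q).mulVecLin with hV
  by_contra hcon
  push Not at hcon
  set c := Module.finrank L V with hc
  let b := Module.finBasisOfFinrankEq L V hc.symm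
  have hli : LinearIndependent L (fun i => (b i : Fin (m + 1) → L)) :=
    b.linearIndependent.map' V.subtype (Submodule.ker_subtype V)
  obtain ⟨hk, g, g', hg, hg', hgb⟩ := exists_coord _ hli
  set B : Matrix (Fin (m + 1)) (Fin c) L := fun i j => (b j : Fin (m + 1) → L) i with hB
  have hBl : ∀ j l, ∑ i, g i (Fin.castLE hk j) * B i l = if j = l then 1 else 0 := by
    intro j l
    have h1 : ∀ i, g i (Fin.castLE hk j) * B i l =
        g' (Fin.castLE hk l) i * g i (Fin.castLE hk j) := by
      intro i
      rw [hgb, mul_comm]
    rw [Finset.sum_congr rfl fun i _ => h1 i, ← Matrix.mul_apply, hg', Matrix.one_apply]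
    simp only [Fin.castLE_inj, eq_comm]
  have hgB : gram Q * B = 0 := by
    ext i j
    have h1 : (gram Q).mulVec (b j : Fin (m + 1) → L) = 0 := LinearMap.mem_ker.1 (b j).2
    exact congrFun h1 i
  -- the vectors in the kernel over extensions
  have hzero : ∀ (L' : Type u) [Field L'] [Algebra L L'] (u : Fin c → L') (v : Fin (m + 1) → L'),
      (∀ i, v i = ∑ j, algebraMap L L' (B i j) * u j) →
      (∀ j, aeval v (pderiv j Q) = 0) ∧ aeval v Q = 0 := by
    intro L' _ _ u v hv
    have hv' : v = (B.map (algebraMap L L')).mulVec u := by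
      funext i
      rw [hv]
      rfl
    have h1 : ∀ j, aeval v (pderiv j Q) = 0 := by
      intro j
      rw [aeval_pderiv_gram hQ2, hv', Matrix.mulVec_mulVec, ← Matrix.map_mul, hgB]
      simp
    refine ⟨h1, ?_⟩
    have h2 := congrArg (aeval v) hQ2.sum_X_mul_pderiv
    rw [map_sum, Finset.sum_eq_zero, map_nsmul] at h2
    · have h3 : CharZero L' := charZero_of_injective_algebraMap (algebraMap L L').injective
      have h4 : (2 : ℕ) • (aeval v Q : L') = 0 := h2.symm
      exact (smul_eq_zero.1 h4).resolve_left two_ne_zero
    · intro j _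
      rw [map_mul, h1, mul_zero]
  -- the polynomials
  let f : Fin (m + e + 1) → MvPolynomial (Fin c) L := fun k =>
    lsub K (Wm m e w * B) (pderiv k F)
  have hf0 : ∀ k, constantCoeff (f k) = 0 := by
    intro k
    have h1 : IsHomogeneous (f k) 2 := isHomogeneous_lsub _ (isHomogeneous_pderiv hF3 k)
    rw [constantCoeff_eq]
    exact h1.coeff_eq_zero (by simp)
  set R := Finset.univ.filter fun k : Fin (m + e + 1) => k.val ≤ e ∧ k.val ≠ k0 ∧
    ∀ l, T l ≠ k.val with hR
  have hRc : R.card < c := by
    have := card_rest (N := m + e + 1) hk0 hT hTinj hTk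
    rw [← hR] at this
    omega
  obtain ⟨L', _, _, u, hu0, hu⟩ := exists_common_zero' hRc
    (fun i => f ((R.equivFin.symm i : R) : Fin (m + e + 1))) (fun i => hf0 _)
  have huR : ∀ k ∈ R, aeval u (f k) = 0 := by
    intro k hk'
    have h1 := hu (R.equivFin ⟨k, hk'⟩)
    rwa [Equiv.symm_apply_apply] at h1
  let i1 : Algebra K L' := ((algebraMap L L').comp (algebraMap K L)).toAlgebra
  have i2 : IsScalarTower K L L' := IsScalarTower.of_algebraMap_eq fun x => rfl
  set v : Fin (m + 1) → L' := fun i => ∑ j, algebraMap L L' (B i j) * u j with hv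
  set x : Fin (m + e + 1) → L' := fun i => ∑ j, algebraMap L L' (Wm m e w i j) * v j with hx
  obtain ⟨hQd, hQ0⟩ := hzero L' u v fun i => rfl
  have hxB : (fun i => ∑ j, algebraMap L L' ((Wm m e w * B) i j) * u j) = x := by
    funext i
    simp only [hx, hv, Matrix.mul_apply, map_sum, map_mul, Finset.sum_mul, Finset.mul_sum]
    rw [Finset.sum_comm]
    refine Finset.sum_congr rfl fun j _ => Finset.sum_congr rfl fun l _ => ?_
    ring
  have hfk : ∀ k, aeval u (f k) = aeval x (pderiv k F) := by
    intro k
    change aeval u (lsub K (Wm m e w * B) (pderiv k F)) = _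
    rw [aeval_lsub, hxB]
  -- `F` vanishes
  have hF0 : aeval x F = 0 := by
    rw [← aeval_lsub (Wm m e w) F v, hlF, map_mul, hQ0, mul_zero]
  have hrel : ∀ j, ∑ i, algebraMap L L' (Wm m e w i j) * aeval x (pderiv i F) = 0 := by
    intro j
    have h1 : aeval v (pderiv j (lsub K (Wm m e w) F)) = 0 := by
      rw [hlF, pderiv_mul, map_add, map_mul, map_mul, hQd, hQ0, mul_zero, mul_zero, add_zero]
    rw [pderiv_lsub, map_sum] at h1
    rw [← h1]
    refine Finset.sum_congr rfl fun i _ => ?_
    rw [map_mul, aeval_C, aeval_lsub]
  have hbig : ∀ i : Fin (m + e + 1), e < i.val → aeval x (pderiv i F) = 0 := by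
    intro i hi
    have h1 := hrel ⟨i.val - e, by have := i.2; omega⟩
    rw [Finset.sum_eq_single i] at h1
    · have h2 : Wm m e w i ⟨i.val - e, by have := i.2; omega⟩ = 1 := by
        unfold Wm
        rw [if_neg (by omega), if_pos (by simp only; omega)]
      rw [h2, map_one, one_mul] at h1
      exact h1
    · intro i' _ hi'
      have h2 : Wm m e w i' ⟨i.val - e, by have := i.2; omega⟩ = 0 := by
        unfold Wm
        split_ifs with h3 h4 h5
        · have h6 := congrArg Fin.val h4
          simp only [Fin.val_zero] at h6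
          omega
        · rfl
        · exfalso
          apply hi'
          apply Fin.ext
          simp only at h5
          omega
        · rfl
      rw [h2, map_zero, zero_mul]
    · simp
  -- the relations of the derivations
  have hD : ∀ D : Derivation K L L,
      ∑ k, algebraMap L L' (D (wx m e w k)) * aeval x (pderiv k F) = 0 := by
    intro D
    have h1 : (∑ k, C (D (wx m e w k)) * f k : MvPolynomial (Fin c) L) = 0 := by
      apply MvPolynomial.funext
      intro u'
      rw [map_zero, map_sum]
      have h2 := hzero L u' (fun i => ∑ j, B i j * u' j) fun i => rfl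
      have h3 := key_D D hH0' hFH h2.2 h2.1 (x := fun i => ∑ j, Wm m e w i j *
        ∑ l, B j l * u' l) (fun i => rfl)
      rw [← h3]
      refine Finset.sum_congr rfl fun k _ => ?_
      rw [map_mul, eval_C]
      congr 1
      change aeval u' (lsub K (Wm m e w * B) (pderiv k F)) = _
      rw [aeval_lsub]
      congr 2
      funext i
      simp only [Matrix.mul_apply, Algebra.algebraMap_self, RingHom.id_apply, Finset.sum_mul,
        Finset.mul_sum]
      rw [Finset.sum_comm]
      refine Finset.sum_congr rfl fun j _ => Finset.sum_congr rfl fun l _ => ?_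
      ring
    have h2 := congrArg (aeval u) h1
    rw [map_zero, map_sum] at h2
    rw [← h2]
    refine Finset.sum_congr rfl fun k _ => ?_
    rw [map_mul, aeval_C, hfk]
  have hsmall : ∀ k ∈ R, aeval x (pderiv k F) = 0 := by
    intro k hk'
    rw [← hfk]
    exact huR k hk'
  have hTl : ∀ l (hl : T l < m + e + 1), aeval x (pderiv ⟨T l, hl⟩ F) = 0 := by
    intro l hl
    obtain ⟨D, hDl⟩ := exists_der (fun l => w (T l)) hTi l
    have h1 := hD D
    rw [Finset.sum_eq_single ⟨T l, hl⟩] at h1
    · rw [wx, if_pos (hT l)] at h1
      simp only at h1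
      have h2 := hDl l
      simp only [if_true] at h2
      rw [h2, map_one, one_mul] at h1
      exact h1
    · intro k _ hkl
      by_cases hke : k.val ≤ e
      · by_cases hkR : k ∈ R
        · rw [hsmall k hkR, mul_zero]
        · by_cases hkk : k.val = k0
          · rw [wx, if_pos hke, hkk, hw, D.map_one_eq_zero, map_zero, zero_mul]
          · have h2 : ∃ l', T l' = k.val := by
              by_contra hcon'
              push Not at hcon'
              exact hkR (Finset.mem_filter.2 ⟨Finset.mem_univ _, hke, hkk, hcon'⟩)
            obtain ⟨l', hl'⟩ := h2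
            have h3 : l' ≠ l := by
              rintro rfl
              exact hkl (Fin.ext hl'.symm)
            have h4 := hDl l'
            simp only [if_neg h3] at h4
            rw [wx, if_pos hke, ← hl', h4, map_zero, zero_mul]
      · rw [hbig k (by omega), mul_zero]
    · simp
  have hk00 : ∀ (hl : k0 < m + e + 1), aeval x (pderiv ⟨k0, hl⟩ F) = 0 := by
    intro hl
    have h1 := hrel 0
    rw [Finset.sum_eq_single ⟨k0, hl⟩] at h1
    · rw [Wm_zero, wx, if_pos hk0] at h1
      simp only [hw, map_one, one_mul] at h1
      exact h1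
    · intro k _ hkl
      by_cases hke : k.val ≤ e
      · by_cases hkR : k ∈ R
        · rw [hsmall k hkR, mul_zero]
        · by_cases hkk : k.val = k0
          · exact absurd (Fin.ext hkk) hkl
          · have h2 : ∃ l', T l' = k.val := by
              by_contra hcon'
              push Not at hcon'
              exact hkR (Finset.mem_filter.2 ⟨Finset.mem_univ _, hke, hkk, hcon'⟩)
            obtain ⟨l', hl'⟩ := h2
            have h3 := hTl l' (by rw [hl']; exact k.2)
            have h4 : (⟨T l', by rw [hl']; exact k.2⟩ : Fin (m + e + 1)) = k := Fin.ext hl'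
            rw [h4] at h3
            rw [h3, mul_zero]
      · rw [hbig k (by omega), mul_zero]
    · simp
  -- the point is not zero
  have hx0 : x ≠ 0 := by
    intro h0
    apply hu0
    have hv0 : ∀ j, v j = 0 := by
      intro j
      by_cases hj : j = 0
      · rw [hj]
        have h1 := congrFun h0 ⟨k0, by omega⟩
        simp only [hx] at h1
        rw [Finset.sum_eq_single 0, Wm_zero, wx, if_pos hk0] at h1
        · simp only [hw, map_one, one_mul] at h1
          exact h1
        · intro j _ hj'
          rw [Wm_ne w (i := ⟨k0, by omega⟩) hk0 hj', map_zero, zero_mul]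
        · simp
      · have hj0 : 0 < j.val := Nat.pos_of_ne_zero fun h => hj (Fin.ext h)
        have h1 := congrFun h0 ⟨j.val + e, by have := j.2; omega⟩
        simp only [hx] at h1
        rw [Finset.sum_eq_single j] at h1
        · have h2 : Wm m e w ⟨j.val + e, by have := j.2; omega⟩ j = 1 := by
            unfold Wm
            rw [if_neg (by simp only; omega), if_pos rfl]
          rw [h2, map_one, one_mul] at h1
          exact h1
        · intro j' _ hj'
          have h2 : Wm m e w ⟨j.val + e, by have := j.2; omega⟩ j' = 0 := by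
            unfold Wm
            rw [if_neg (by simp only; omega), if_neg]
            intro h3
            apply hj'
            apply Fin.ext
            simp only at h3
            omega
          rw [h2, map_zero, zero_mul]
        · simp
    funext j
    have h1 : ∑ i, algebraMap L L' (g i (Fin.castLE hk j)) * v i = u j := by
      simp only [hv, Finset.mul_sum]
      rw [Finset.sum_comm]
      have h2 : ∀ l, ∑ i, algebraMap L L' (g i (Fin.castLE hk j)) *
          (algebraMap L L' (B i l) * u l) = (if j = l then 1 else 0) * u l := by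
        intro l
        have h3 := congrArg (algebraMap L L') (hBl j l)
        rw [map_sum] at h3
        have h4 : (algebraMap L L') (if j = l then 1 else 0) = if j = l then 1 else 0 := by
          split_ifs
          · exact map_one _
          · exact map_zero _
        rw [h4] at h3
        rw [← h3, Finset.sum_mul]
        refine Finset.sum_congr rfl fun i _ => ?_
        rw [map_mul]
        ring
      rw [Finset.sum_congr rfl fun l _ => h2 l]
      simp
    rw [← h1]
    simp [hv0]
  obtain ⟨k, hk'⟩ := hs L' x hx0 hF0
  apply hk'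
  by_cases hke : k.val ≤ e
  · by_cases hkR : k ∈ R
    · exact hsmall k hkR
    · by_cases hkk : k.val = k0
      · have h1 := hk00 (by omega)
        have h4 : (⟨k0, by omega⟩ : Fin (m + e + 1)) = k := Fin.ext hkk.symm
        rw [h4] at h1
        exact h1
      · have h2 : ∃ l', T l' = k.val := by
          by_contra hcon'
          push Not at hcon'
          exact hkR (Finset.mem_filter.2 ⟨Finset.mem_univ _, hke, hkk, hcon'⟩)
        obtain ⟨l', hl'⟩ := h2
        have h3 := hTl l' (by rw [hl']; exact k.2)
        have h4 : (⟨T l', by rw [hl']; exact k.2⟩ : Fin (m + e + 1)) = k := Fin.ext hl'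
        rw [h4] at h3
        exact h3
  · exact hbig k (by omega)

end Pool.Agent.W5h94.CU
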